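import Pool.Agent.Helper53.WR.St.Stubs

/-!
# WR-B1 (choice of the shifts)
-/

set_option autoImplicit false

namespace Pool.Agent.Helper67.WR

open Finset
open Pool.Agent.Helper3.Thin (dig und off Lab GoodSet und_lt dig_und dig_und_high)

private lemma und_modEq {q : ℕ} (u v v' : ZMod q × ZMod q) :
    und u v ≡ und u v' [MOD q ^ 2] := by
  unfold und
  unfold Nat.ModEq
  rw [Nat.add_mul_mod_self_right, Nat.add_mul_mod_self_right]

private lemma und_inj {q : ℕ} [Fact q.Prime] {u v v' : ZMod q × ZMod q}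
    (h : und u v ≡ und u v' [MOD q ^ 4]) : v = v' := by
  have h1 : und u v = und u v' := Nat.ModEq.eq_of_lt_of_lt h (und_lt u v) (und_lt u v')
  have h2 := dig_und_high u v
  rw [h1, dig_und_high u v'] at h2
  exact h2.symm

/-- Mass of the weights counting the elements of `O`. -/
private lemma mass_O {q : ℕ} [Fact q.Prime] (O : Finset ℕ) (H : ℕ)
    (hO : ∀ r, (O.filter (fun o => o % q ^ 2 = r)).card ≤ H) (ν : ℕ) (u : ZMod q × ZMod q) :
    ∑ v : ZMod q × ZMod q, (O.filter (fun o => (und u v + o) % q ^ 4 = ν % q ^ 4)).card ≤ H := by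
  classical
  rw [← Finset.card_biUnion]
  · by_cases hne : ((univ : Finset (ZMod q × ZMod q)).biUnion
        (fun v => O.filter (fun o => (und u v + o) % q ^ 4 = ν % q ^ 4))).Nonempty
    · obtain ⟨o0, ho0⟩ := hne
      refine le_trans (Finset.card_le_card ?_) (hO (o0 % q ^ 2))
      intro o ho
      simp only [mem_biUnion, mem_univ, true_and, mem_filter] at ho ho0 ⊢
      obtain ⟨v, hoO, hv⟩ := ho
      obtain ⟨v0, hoO0, hv0⟩ := ho0
      refine ⟨hoO, ?_⟩
      have h1 : und u v + o ≡ und u v0 + o0 [MOD q ^ 4] := by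
        unfold Nat.ModEq
        rw [hv, hv0]
      have h2 : und u v + o ≡ und u v0 + o0 [MOD q ^ 2] :=
        h1.of_dvd (pow_dvd_pow q (by norm_num))
      exact Nat.ModEq.add_left_cancel (und_modEq u v v0) h2
    · rw [Finset.not_nonempty_iff_eq_empty] at hne
      rw [hne]
      simp
  · intro v _ v' _ hvv'
    rw [Function.onFun, Finset.disjoint_left]
    intro o ho ho'
    rw [mem_filter] at ho ho'
    apply hvv'
    apply und_inj (u := u)
    have h1 : und u v + o ≡ und u v' + o [MOD q ^ 4] := by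
      unfold Nat.ModEq
      rw [ho.2, ho'.2]
    exact Nat.ModEq.add_right_cancel' o h1

/-- WR-B1 (choice of the shifts). -/
theorem tau_select {q : ℕ} [Fact q.Prime] (Γ : Finset (ZMod q × ZMod q)) (hΓ : Γ.card ≤ 3 * q)
    (T O : Finset ℕ) (S : ℕ) (hS : 0 < S) (H x : ℕ) (Mod : Finset ℕ)
    (hMod : ∀ m ∈ Mod, 0 < m ∧ Nat.Coprime q m)
    (hO : ∀ r, (O.filter (fun o => o % q ^ 2 = r)).card ≤ H)
    (hx : ((q : ℝ) ^ 4 + ∑ m ∈ Mod, (m : ℝ)) * 2 ^ 13 < 2 ^ x) :
    ∃ τ : ZMod q × ZMod q → ZMod q × ZMod q,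
      (∀ ν : ℕ, (((Γ ×ˢ Γ) ×ˢ O).filter (fun y =>
        (und y.1.1 (y.1.2 + τ y.1.1) + y.2) % q ^ 4 = ν % q ^ 4)).card ≤ x * H) ∧
      ∀ m ∈ Mod, ∀ r : ℕ, ((((Γ ×ˢ Γ) ×ˢ ((range S) ×ˢ T)).filter (fun y =>
        (und y.1.1 (y.1.2 + τ y.1.1) + q ^ 4 * (S + y.2.1 + y.2.2)) % m = r % m)).card : ℝ)
          ≤ x * (T.card * ((q : ℝ) ^ 2 * S / m + 1)) := by
  classical
  let s : Finset (ℕ ⊕ (Σ _ : ℕ, ℕ)) := (range (q ^ 4)).disjSum (Mod.sigma (fun m => range m))
  let w : ℕ ⊕ (Σ _ : ℕ, ℕ) → ZMod q × ZMod q → ZMod q × ZMod q → ℝ := fun j u v =>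
    Sum.elim
      (fun ν => ((O.filter (fun o => (und u v + o) % q ^ 4 = ν % q ^ 4)).card : ℝ))
      (fun a => ((((range S) ×ˢ T).filter
        (fun y => (und u v + q ^ 4 * (S + y.1 + y.2)) % a.1 = a.2 % a.1)).card : ℝ)) j
  let M : ℕ ⊕ (Σ _ : ℕ, ℕ) → ℝ := fun j =>
    Sum.elim (fun _ => (H : ℝ)) (fun a => T.card * ((q : ℝ) ^ 2 * S / a.1 + 1)) j
  have hw : ∀ j ∈ s, ∀ u v, 0 ≤ w j u v := by
    intro j _ u v
    rcases j with ν | a
    · exact Nat.cast_nonneg _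
    · exact Nat.cast_nonneg _
  have hm : ∀ j ∈ s, ∀ u, ∑ v, w j u v ≤ M j := by
    intro j hj u
    rcases j with ν | a
    · have h := mass_O O H hO ν u
      have h' : (((∑ v : ZMod q × ZMod q,
          (O.filter (fun o => (und u v + o) % q ^ 4 = ν % q ^ 4)).card : ℕ)) : ℝ) ≤ (H : ℝ) := by
        exact_mod_cast h
      rw [Nat.cast_sum] at h'
      exact h'
    · have hj' : a ∈ Mod.sigma (fun m => range m) := by
        simpa [s] using hj
      rw [mem_sigma] at hj'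
      obtain ⟨hm0, hc⟩ := hMod a.1 hj'.1
      exact Pool.Agent.Helper53.WR.St.mass_bound T S a.1 hS hm0 hc a.2 u
  have hxs : (s.card : ℝ) * 2 ^ 13 < 2 ^ x := by
    have : (s.card : ℝ) = (q : ℝ) ^ 4 + ∑ m ∈ Mod, (m : ℝ) := by
      simp only [s]
      rw [Finset.card_disjSum, Finset.card_sigma, card_range]
      push_cast
      simp
    rw [this]
    exact hx
  obtain ⟨τ, hτ⟩ := Pool.Agent.Helper53.WR.St.tau_exists Γ hΓ s w M x hw hm hxs
  refine ⟨τ, ?_, ?_⟩
  · intro ν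
    have hq : 0 < q ^ 4 := pow_pos (Fact.out : q.Prime).pos 4
    have hmem : (Sum.inl (ν % q ^ 4) : ℕ ⊕ (Σ _ : ℕ, ℕ)) ∈ s := by
      simp only [s]
      rw [Finset.inl_mem_disjSum, mem_range]
      exact Nat.mod_lt _ hq
    have h := hτ _ hmem
    simp only [w, M, Sum.elim_inl, Nat.mod_mod] at h
    have hcard : (((Γ ×ˢ Γ) ×ˢ O).filter (fun y =>
        (und y.1.1 (y.1.2 + τ y.1.1) + y.2) % q ^ 4 = ν % q ^ 4)).card
        = ∑ u ∈ Γ, ∑ z ∈ Γ,
          (O.filter (fun o => (und u (z + τ u) + o) % q ^ 4 = ν % q ^ 4)).card := by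
      rw [Finset.card_filter, Finset.sum_product, Finset.sum_product]
      refine Finset.sum_congr rfl fun u _ => Finset.sum_congr rfl fun z _ => ?_
      rw [Finset.card_filter]
    rw [hcard]
    have h' : (((∑ u ∈ Γ, ∑ z ∈ Γ,
          (O.filter (fun o => (und u (z + τ u) + o) % q ^ 4 = ν % q ^ 4)).card : ℕ)) : ℝ)
        ≤ ((x * H : ℕ) : ℝ) := by
      push_cast
      exact h
    exact_mod_cast h'
  · intro m hmM r
    obtain ⟨hm0, hc⟩ := hMod m hmM
    have hmem : (Sum.inr ⟨m, r % m⟩ : ℕ ⊕ (Σ _ : ℕ, ℕ)) ∈ s := by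
      simp only [s]
      rw [Finset.inr_mem_disjSum, mem_sigma]
      exact ⟨hmM, mem_range.mpr (Nat.mod_lt _ hm0)⟩
    have h := hτ _ hmem
    simp only [w, M, Sum.elim_inr, Nat.mod_mod] at h
    have hcard : (((Γ ×ˢ Γ) ×ˢ ((range S) ×ˢ T)).filter (fun y =>
        (und y.1.1 (y.1.2 + τ y.1.1) + q ^ 4 * (S + y.2.1 + y.2.2)) % m = r % m)).card
        = ∑ u ∈ Γ, ∑ z ∈ Γ, (((range S) ×ˢ T).filter
          (fun y => (und u (z + τ u) + q ^ 4 * (S + y.1 + y.2)) % m = r % m)).card := by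
      rw [Finset.card_filter, Finset.sum_product, Finset.sum_product]
      refine Finset.sum_congr rfl fun u _ => Finset.sum_congr rfl fun z _ => ?_
      rw [Finset.card_filter]
    rw [hcard]
    push_cast
    exact h

end Pool.Agent.Helper67.WR
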