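import Pool.Agent.Helper53.WR.Params
import Pool.Agent.Helper3.ThinMain

/-!
# WR-E6 (start of the recursion)
-/

set_option autoImplicit false

namespace Pool.Agent.Helper67.WR

open Finset Filter
open Pool.Agent.Helper53.WR

private lemma rep_le_succ (A : Set ℕ) (n : ℕ) : rep A n ≤ n + 1 := by
  unfold rep
  have hsub : ({p : ℕ × ℕ | p.1 ∈ A ∧ p.2 ∈ A ∧ p.1 + p.2 = n} : Set (ℕ × ℕ))
      ⊆ ((Finset.HasAntidiagonal.antidiagonal n : Finset (ℕ × ℕ)) : Set (ℕ × ℕ)) := by
    rintro p ⟨_, _, hp⟩
    rw [Finset.mem_coe, Finset.HasAntidiagonal.mem_antidiagonal]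
    exact hp
  have h := Set.ncard_le_ncard hsub (Finset.finite_toSet _)
  rw [Set.ncard_coe_finset, Finset.Nat.card_antidiagonal] at h
  exact h

/-- WR-E6 (start of the recursion: Erdos' theorem, from `Pool.Agent.Helper3.Thin.thin_basis`). -/
theorem hasExp_base : HasExp 1 0 := by
  classical
  obtain ⟨A, hA, C, hC⟩ := Pool.Agent.Helper3.Thin.thin_basis
  obtain ⟨N, hN⟩ := eventually_atTop.mp hC
  refine ⟨A, ⟨|C| + ((max N 16 : ℕ) + 1), ?_⟩, ⟨0, ?_⟩⟩
  · intro l hl n hn
    have hl1 : (1 : ℝ) ≤ (l : ℝ) := by exact_mod_cast hl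
    rw [Real.rpow_one]
    rcases lt_or_ge n (max N 16) with h | h
    · have h1 : (rep A n : ℝ) ≤ ((max N 16 : ℕ) : ℝ) + 1 := by
        have := rep_le_succ A n
        have h2 : rep A n ≤ max N 16 + 1 := by omega
        exact_mod_cast h2
      have h3 : (0 : ℝ) ≤ |C| := abs_nonneg C
      have h4 : (0 : ℝ) ≤ ((max N 16 : ℕ) : ℝ) + 1 := by positivity
      nlinarith
    · have hnN : N ≤ n := le_trans (le_max_left _ _) h
      have hn16 : 16 ≤ n := le_trans (le_max_right _ _) h
      have h1 := hN n hnN
      have hnpos : (0 : ℝ) < (n : ℝ) := by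
        have : 0 < n := by omega
        exact_mod_cast this
      have he : Real.exp (Real.exp 1) ≤ (n : ℝ) := by
        have h16 : (16 : ℝ) ≤ (n : ℝ) := by exact_mod_cast hn16
        have hexp1 : Real.exp 1 ≤ 2.7182818286 := Real.exp_one_lt_d9.le
        have h5 : Real.exp (Real.exp 1) ≤ Real.exp (2.72 : ℝ) :=
          Real.exp_le_exp.mpr (by linarith)
        have h6 : Real.exp (2.72 : ℝ) ≤ 16 := by
          have h7 : Real.exp (2.72 : ℝ) = (Real.exp 1) ^ (2.72 : ℝ) := by
            rw [← Real.exp_mul]; norm_num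
          have h8 : Real.exp (2.72 : ℝ) = Real.exp (0.68 : ℝ) ^ 4 := by
            rw [← Real.exp_nat_mul]; norm_num
          have h9 : Real.exp (0.68 : ℝ) ≤ 2 := by
            have h10 : (0.68 : ℝ) ≤ Real.log 2 := by
              have := Real.log_two_gt_d9
              linarith
            calc Real.exp (0.68 : ℝ) ≤ Real.exp (Real.log 2) := Real.exp_le_exp.mpr h10
              _ = 2 := Real.exp_log (by norm_num)
          rw [h8]
          calc Real.exp (0.68 : ℝ) ^ 4 ≤ 2 ^ 4 :=
                pow_le_pow_left₀ (Real.exp_pos _).le h9 4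
            _ = 16 := by norm_num
        linarith
      have hlog : Real.exp 1 ≤ Real.log n := by
        rw [Real.le_log_iff_exp_le hnpos]
        exact he
      have hlogpos : 0 < Real.log n := lt_of_lt_of_le (Real.exp_pos 1) hlog
      have hloglog : 1 ≤ Real.log (Real.log n) := by
        rw [Real.le_log_iff_exp_le hlogpos]
        exact hlog
      have hdiv : Real.log n / Real.log (Real.log n) ≤ Real.log n :=
        div_le_self hlogpos.le hloglog
      have hdiv0 : 0 ≤ Real.log n / Real.log (Real.log n) :=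
        div_nonneg hlogpos.le (by linarith)
      have hlogl : Real.log n ≤ (l : ℝ) := by
        have h11 : Real.log n ≤ Real.log ((2 : ℝ) ^ l) := by
          apply Real.log_le_log hnpos
          exact_mod_cast hn.le
        rw [Real.log_pow] at h11
        have h12 : Real.log 2 ≤ 1 := by
          have := Real.log_two_lt_d9
          linarith
        nlinarith [Real.log_nonneg (show (1 : ℝ) ≤ 2 by norm_num)]
      have h13 : C * (Real.log n / Real.log (Real.log n)) ≤ |C| * (l : ℝ) := by
        calc C * (Real.log n / Real.log (Real.log n))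
            ≤ |C| * (Real.log n / Real.log (Real.log n)) :=
              mul_le_mul_of_nonneg_right (le_abs_self C) hdiv0
          _ ≤ |C| * (l : ℝ) :=
              mul_le_mul_of_nonneg_left (le_trans hdiv hlogl) (abs_nonneg C)
      have h14 : (rep A n : ℝ) ≤ |C| * (l : ℝ) := by
        unfold rep
        exact le_trans h1 h13
      have h15 : (0 : ℝ) ≤ (((max N 16 : ℕ) : ℝ) + 1) * (l : ℝ) := by positivity
      nlinarith
  · intro J _
    have h0 : badCount A J = 0 := by
      unfold badCount
      rw [Finset.card_eq_zero, Finset.filter_eq_empty_iff]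
      intro j _ hj
      exact hj (fun n _ _ => hA n)
    rw [h0]
    simp

end Pool.Agent.Helper67.WR
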